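import Pool.Agent.Helper869_KR.Final

namespace Pool.Agent.Results.MP_6f1380_al.CentralDerived

open Pool.Agent.Helper869_KR

/-- Let `n ≥ 6` and let `L` be a Lie ring which is the sum of additive subgroups `G i`,
`i ∈ ℤ/n`, with `[G i, G j] ⊆ G (i+j)` and `G 0 = 0`.  Then `L^{(2^{n-3}-1)}` is central in `L`,
and hence `L^{(2^{n-3})} = 0`. -/
theorem result (n : ℕ) (hn : 6 ≤ n) (L : Type*) [LieRing L] (G : ZMod n → AddSubgroup L)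
    (hG : ⨆ i, G i = ⊤) (h0 : G 0 = ⊥)
    (hbr : ∀ i j : ZMod n, ∀ x ∈ G i, ∀ y ∈ G j, ⁅x, y⁆ ∈ G (i + j)) :
    (∀ v : L, ∀ x ∈ der (⊤ : AddSubgroup L) (2 ^ (n - 3) - 1), ⁅v, x⁆ = 0) ∧
      der (⊤ : AddSubgroup L) (2 ^ (n - 3)) = ⊥ := by
  refine ⟨?_, main_der hn G hG h0 hbr⟩
  intro v x hx
  have h1 := main_zmod hn G hG h0 hbr
  have h2 : ⁅v, x⁆ ∈ brk (⊤ : AddSubgroup L) (der (⊤ : AddSubgroup L) (2 ^ (n - 3) - 1)) :=
    brk_mem (AddSubgroup.mem_top v) hx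
  rw [h1, AddSubgroup.mem_bot] at h2
  exact h2

end Pool.Agent.Results.MP_6f1380_al.CentralDerived
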