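import Pool.Agent.H899KR.Better

/-!
# An improved upper bound in Kreknin's theorem
-/

namespace Pool.Agent.Results.MP_6f1380_al.KrekninBound

open Pool.Agent.H899KR

/-- `D 0, …, D 5 = 0, 0, 1, 3, 5, 8` and `D (k+1) = 2 D k + 1 - D ⌊(k+1)/2⌋` for `k ≥ 5` (truncated
subtraction; `D` is nondecreasing, so the subtraction is a true one). -/
def D : ℕ → ℕ
  | 0 => 0
  | 1 => 0
  | 2 => 1
  | 3 => 3
  | 4 => 5
  | 5 => 8
  | (k + 6) => 2 * D (k + 5) + 1 - D ((k + 6) / 2)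
termination_by k => k
decreasing_by all_goals omega

/-- The bound for the derived length. -/
def B (n : ℕ) : ℕ := D (n - 1) + Nat.clog 2 n

theorem D_eq (k : ℕ) : D k = Sys.kd k := by
  induction k using Nat.strong_induction_on with
  | _ k ih =>
    match k with
    | 0 => simp [D, Sys.kd]
    | 1 => simp [D, Sys.kd]
    | 2 => simp [D, Sys.kd]
    | 3 => simp [D, Sys.kd]
    | 4 => simp [D, Sys.kd]
    | 5 => simp [D, Sys.kd]
    | (k + 6) => rw [D, Sys.kd, ih (k + 5) (by omega), ih ((k + 6) / 2) (by omega)]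

/-- Every `ZMod n`-graded Lie ring with trivial zero component (it is enough that `L` is the sum of
the components) has derived length at most `B n`; and `12 * B n ≤ 2 ^ n` for `n ≥ 14`. -/
theorem result :
    (∀ (n : ℕ), 0 < n → ∀ (L : Type*) [LieRing L] (𝓛 : ZMod n → AddSubgroup L),
      (⨆ i, 𝓛 i) = ⊤ →
      (∀ i j, ∀ x ∈ 𝓛 i, ∀ y ∈ 𝓛 j, ⁅x, y⁆ ∈ 𝓛 (i + j)) →
      𝓛 0 = ⊥ →
      LieAlgebra.derivedSeries ℤ L (B n) = ⊥) ∧
    (∀ n : ℕ, 14 ≤ n → 12 * B n ≤ 2 ^ n) := by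
  refine ⟨?_, ?_⟩
  · intro n hn L _ 𝓛 hsum hbr h0
    have hB : B n = Sys.bound2 n := by rw [B, Sys.bound2, D_eq]
    rw [hB, eq_bot_iff]
    intro x hx
    have hS : ∀ x : L, x ∈ ⨆ i, (ofGrading 𝓛 hbr h0).A i := by
      intro x
      have h1 : x ∈ ⨆ i, 𝓛 i := by rw [hsum]; trivial
      refine (iSup_le fun i => ?_ : (⨆ i, 𝓛 i) ≤ ⨆ i, (ofGrading 𝓛 hbr h0).A i) h1
      have : NeZero n := ⟨by omega⟩
      have h2 : 𝓛 i = (ofGrading 𝓛 hbr h0).A i.val := by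
        show 𝓛 i = 𝓛 ((i.val : ℕ) : ZMod n)
        rw [ZMod.natCast_zmod_val]
      rw [h2]
      exact le_iSup (ofGrading 𝓛 hbr h0).A i.val
    have h3 := derivedSeries_sub (ofGrading 𝓛 hbr h0) hS (Sys.bound2 n) x hx
    have h4 : (⨆ i, (Sys.der^[Sys.bound2 n] (ofGrading 𝓛 hbr h0)).A i) = ⊥ := by
      rw [iSup_eq_bot]
      exact fun i => Sys.iter_bound2 hn _ i
    rw [h4] at h3
    rw [LieSubmodule.mem_bot]
    exact AddSubgroup.mem_bot.mp h3
  · intro n hn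
    have hB : B n = Sys.bound2 n := by rw [B, Sys.bound2, D_eq]
    rw [hB]
    exact Sys.bound2_le n hn

end Pool.Agent.Results.MP_6f1380_al.KrekninBound
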