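import Mathlib

/-!
# A shorter bound in Kreknin's theorem

`L` is a Lie ring, `L = ⨁_{i mod n} L_i` a grading with `L_0 = 0`.  We prove that the derived
length of `L` is at most `τ(n-2) + ⌈log₂ n⌉`, where `τ(m) = s(1) + ... + s(m)` and
`s(k) = 1 + ∑_{⌈k/2⌉ ≤ m < k} s(m)` (so `s = 1, 2, 3, 6, 10, 20, 37, 74, ...`), and that this
number is at most `3 * 2^(n-4) + ⌈log₂ n⌉` for `n ≥ 4`.
-/

namespace Pool.Agent.Results.MP_6f1380_al.ShorterKreknin

open Finset

/-- The additive subgroup `[X, Y]` generated by all brackets `[x, y]`, `x ∈ X`, `y ∈ Y`. -/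
def brk {L : Type*} [LieRing L] (X Y : AddSubgroup L) : AddSubgroup L :=
  AddSubgroup.closure {z | ∃ x ∈ X, ∃ y ∈ Y, z = ⁅x, y⁆}

/-- The derived series `L^(0) = L`, `L^(k+1) = [L^(k), L^(k)]`. -/
def der (L : Type*) [LieRing L] : ℕ → AddSubgroup L
  | 0 => ⊤
  | k + 1 => brk (der L k) (der L k)

/-- The sequence `s(k) = 1 + ∑_{⌈k/2⌉ ≤ m < k} s(m)`. -/
def s (k : ℕ) : ℕ := 1 + ∑ m : Fin k, if (k + 1) / 2 ≤ (m : ℕ) then s m else 0
termination_by k
decreasing_by exact m.2

/-- `τ(m) = s(1) + ... + s(m)`. -/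
def τ (m : ℕ) : ℕ := ∑ k ∈ Finset.Icc 1 m, s k

/-- `G` is a `(ℤ/n)`-grading of the Lie ring `L`: `L` is the direct sum of the additive subgroups
`G i`, and `[G i, G j] ⊆ G (i + j)`. -/
structure IsGrading {L : Type*} [LieRing L] (n : ℕ) (G : ZMod n → AddSubgroup L) : Prop where
  internal : DirectSum.IsInternal G
  bracket : ∀ i j, brk (G i) (G j) ≤ G (i + j)

variable {L : Type*} [LieRing L]

/-- internal: graded families indexed by `ℕ`, periodic mod `n`. -/
structure Gr (n : ℕ) (M : ℕ → AddSubgroup L) : Prop where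
  zero : M 0 = ⊥
  per : ∀ i j, i ≡ j [MOD n] → M i = M j
  br : ∀ i j x y, x ∈ M i → y ∈ M j → ⁅x, y⁆ ∈ M (i + j)

/-- internal: the derived family. -/
def dfam (n : ℕ) (M : ℕ → AddSubgroup L) (k : ℕ) : AddSubgroup L :=
  AddSubgroup.closure {z | ∃ i j x y, i + j ≡ k [MOD n] ∧ x ∈ M i ∧ y ∈ M j ∧ z = ⁅x, y⁆}

lemma dfam_le {n : ℕ} {M : ℕ → AddSubgroup L} (h : Gr n M) (k : ℕ) : dfam n M k ≤ M k := by
  unfold dfam
  rw [AddSubgroup.closure_le]
  rintro z ⟨i, j, x, y, hij, hx, hy, rfl⟩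
  have := h.br i j x y hx hy
  rw [h.per _ _ hij] at this
  exact this

lemma Gr.dfam {n : ℕ} {M : ℕ → AddSubgroup L} (h : Gr n M) : Gr n (dfam n M) where
  zero := by
    have := dfam_le h 0
    rw [h.zero] at this
    exact le_bot_iff.mp this
  per := by
    intro i j hij
    unfold ShorterKreknin.dfam
    congr 1
    ext z
    constructor
    · rintro ⟨a, b, x, y, hab, hx, hy, rfl⟩
      exact ⟨a, b, x, y, hab.trans hij, hx, hy, rfl⟩
    · rintro ⟨a, b, x, y, hab, hx, hy, rfl⟩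
      exact ⟨a, b, x, y, hab.trans hij.symm, hx, hy, rfl⟩
  br := by
    intro i j x y hx hy
    exact AddSubgroup.subset_closure ⟨i, j, x, y, Nat.ModEq.refl _, dfam_le h i hx,
      dfam_le h j hy, rfl⟩

lemma Gr.iter {n : ℕ} {M : ℕ → AddSubgroup L} (h : Gr n M) (t : ℕ) :
    Gr n ((ShorterKreknin.dfam n)^[t] M) := by
  induction t with
  | zero => simpa using h
  | succ t ih => rw [Function.iterate_succ_apply']; exact ih.dfam

lemma iter_le {n : ℕ} {M : ℕ → AddSubgroup L} (h : Gr n M) (t i : ℕ) :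
    ((dfam n)^[t] M) i ≤ M i := by
  induction t with
  | zero => simp
  | succ t ih =>
    rw [Function.iterate_succ_apply']
    exact (dfam_le (h.iter t) i).trans ih

lemma iter_anti {n : ℕ} {M : ℕ → AddSubgroup L} (h : Gr n M) {t u : ℕ} (htu : t ≤ u) (i : ℕ) :
    ((dfam n)^[u] M) i ≤ ((dfam n)^[t] M) i := by
  obtain ⟨d, rfl⟩ := Nat.exists_eq_add_of_le htu
  rw [Nat.add_comm, Function.iterate_add_apply]
  exact iter_le (h.iter t) d i

/-- internal: left-normed words of length `r` and index `i` in letters of index in `[k, n)`. -/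
inductive W (n k : ℕ) (M : ℕ → AddSubgroup L) : ℕ → ℕ → L → Prop
  | base (c i : ℕ) (x : L) (h1 : k ≤ c) (h2 : c < n) (h3 : c ≡ i [MOD n]) (h4 : x ∈ M c) :
      W n k M 1 i x
  | step (r a b i : ℕ) (x y : L) (h0 : W n k M r a x) (h1 : k ≤ b) (h2 : b < n)
      (h3 : a + b ≡ i [MOD n]) (h4 : y ∈ M b) : W n k M (r + 1) i ⁅x, y⁆

lemma W.mod {n k : ℕ} {M : ℕ → AddSubgroup L} {r i j : ℕ} {x : L} (h : W n k M r i x)
    (hij : i ≡ j [MOD n]) : W n k M r j x := by
  cases h with
  | base c i x h1 h2 h3 h4 => exact W.base c j x h1 h2 (h3.trans hij) h4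
  | step r a b i x y h0 h1 h2 h3 h4 => exact W.step r a b j x y h0 h1 h2 (h3.trans hij) h4

lemma W.mem {n k : ℕ} {M : ℕ → AddSubgroup L} (hM : Gr n M) {r i : ℕ} {x : L}
    (h : W n k M r i x) : x ∈ M i := by
  induction h with
  | base c i x h1 h2 h3 h4 => rw [← hM.per _ _ h3]; exact h4
  | step r a b i x y h0 h1 h2 h3 h4 ih => rw [← hM.per _ _ h3]; exact hM.br _ _ _ _ ih h4

/-- internal: the span of the words of index `i` and length at least `r`. -/
def E (n k : ℕ) (M : ℕ → AddSubgroup L) (r i : ℕ) : AddSubgroup L :=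
  AddSubgroup.closure {z | ∃ r', r ≤ r' ∧ W n k M r' i z}

lemma W.memE {n k : ℕ} {M : ℕ → AddSubgroup L} {r r' i : ℕ} {x : L}
    (h : W n k M r' i x) (hr : r ≤ r') : x ∈ E n k M r i :=
  AddSubgroup.subset_closure ⟨r', hr, h⟩

lemma E_mod {n k : ℕ} {M : ℕ → AddSubgroup L} {r i j : ℕ} {x : L} (h : x ∈ E n k M r i)
    (hij : i ≡ j [MOD n]) : x ∈ E n k M r j := by
  have : E n k M r i ≤ E n k M r j := by
    unfold E
    apply AddSubgroup.closure_mono
    rintro z ⟨r', hr, hz⟩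
    exact ⟨r', hr, hz.mod hij⟩
  exact this h

lemma E_step {n k : ℕ} {M : ℕ → AddSubgroup L} {r a b i : ℕ} {x y : L}
    (h : x ∈ E n k M r a) (h1 : k ≤ b) (h2 : b < n) (h3 : a + b ≡ i [MOD n]) (h4 : y ∈ M b) :
    ⁅x, y⁆ ∈ E n k M (r + 1) i := by
  unfold E at h
  induction h using AddSubgroup.closure_induction with
  | mem x hx =>
    obtain ⟨r', hr, hw⟩ := hx
    exact (W.step r' a b i x y hw h1 h2 h3 h4).memE (by omega)
  | zero => rw [zero_lie]; exact AddSubgroup.zero_mem _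
  | add x y' _ _ ihx ihy => rw [add_lie]; exact AddSubgroup.add_mem _ ihx ihy
  | neg x _ ih => rw [neg_lie]; exact AddSubgroup.neg_mem _ ih

lemma E_W {n k : ℕ} {M : ℕ → AddSubgroup L} {t j : ℕ} {y : L} (hy : W n k M t j y) :
    ∀ {r i : ℕ} {x : L}, x ∈ E n k M r i → ⁅x, y⁆ ∈ E n k M (r + t) (i + j) := by
  induction hy with
  | base c j y h1 h2 h3 h4 =>
    intro r i x hx
    exact E_step hx h1 h2 (Nat.ModEq.add_left i h3) h4
  | step t a b j v l h0 h1 h2 h3 h4 ih =>
    intro r i x hx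
    rw [leibniz_lie]
    have e1 : ⁅⁅x, v⁆, l⁆ ∈ E n k M (r + (t + 1)) (i + j) := by
      have := E_step (ih hx) h1 h2 (i := i + j) (by
        rw [Nat.add_assoc]; exact Nat.ModEq.add_left i h3) h4
      simpa [Nat.add_assoc] using this
    have e2 : ⁅v, ⁅x, l⁆⁆ ∈ E n k M (r + (t + 1)) (i + j) := by
      rw [← lie_skew]
      apply AddSubgroup.neg_mem
      have h5 := E_step hx h1 h2 (Nat.ModEq.refl _) h4
      have h6 := ih h5
      have h7 : i + b + a ≡ i + j [MOD n] := by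
        rw [Nat.add_assoc, Nat.add_comm b a]
        exact Nat.ModEq.add_left i h3
      have h8 := E_mod h6 h7
      have h9 : r + 1 + t = r + (t + 1) := by omega
      rw [h9] at h8
      exact h8
    exact AddSubgroup.add_mem _ e1 e2

lemma E_anti {n k : ℕ} {M : ℕ → AddSubgroup L} {r r' i : ℕ} (h : r ≤ r') :
    E n k M r' i ≤ E n k M r i := by
  unfold E
  apply AddSubgroup.closure_mono
  rintro z ⟨r'', hr, hz⟩
  exact ⟨r'', by omega, hz⟩

lemma E_E {n k : ℕ} {M : ℕ → AddSubgroup L} {r i t j : ℕ} {x y : L}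
    (hx : x ∈ E n k M r i) (hy : y ∈ E n k M t j) : ⁅x, y⁆ ∈ E n k M (r + t) (i + j) := by
  unfold E at hy
  induction hy using AddSubgroup.closure_induction with
  | mem y hy =>
    obtain ⟨t', ht, hw⟩ := hy
    exact E_anti (by omega) (E_W hw hx)
  | zero => rw [lie_zero]; exact AddSubgroup.zero_mem _
  | add x' y' _ _ ihx ihy => rw [lie_add]; exact AddSubgroup.add_mem _ ihx ihy
  | neg x' _ ih => rw [lie_neg]; exact AddSubgroup.neg_mem _ ih

/-- replacing letters of index `k` by words in letters of larger index -/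
lemma W_replace {n k : ℕ} {M N : ℕ → AddSubgroup L} (hle : ∀ c, N c ≤ M c)
    (hk : N k ≤ E n (k + 1) M 1 k) {r i : ℕ} {x : L} (h : W n k N r i x) :
    x ∈ E n (k + 1) M r i := by
  induction h with
  | base c i x h1 h2 h3 h4 =>
    rcases Nat.eq_or_lt_of_le h1 with h | h
    · subst h
      exact E_mod (hk h4) h3
    · exact (W.base c i x h h2 h3 (hle c h4)).memE le_rfl
  | step r a b i x y h0 h1 h2 h3 h4 ih =>
    rcases Nat.eq_or_lt_of_le h1 with h | h
    · subst h
      exact E_mod (E_E ih (hk h4)) h3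
    · exact E_step ih h h2 h3 (hle b h4)

lemma E_replace {n k : ℕ} {M N : ℕ → AddSubgroup L} (hle : ∀ c, N c ≤ M c)
    (hk : N k ≤ E n (k + 1) M 1 k) {r i : ℕ} : E n k N r i ≤ E n (k + 1) M r i := by
  conv_lhs => unfold E
  rw [AddSubgroup.closure_le]
  rintro z ⟨r', hr, hz⟩
  exact E_anti hr (W_replace hle hk hz)

lemma mem_zero_of {n : ℕ} {M : ℕ → AddSubgroup L} (hM : Gr n M) {i : ℕ} (hi : i ≡ 0 [MOD n])
    {x : L} (hx : x ∈ M i) : x = 0 := by
  rw [hM.per _ _ hi, hM.zero] at hx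
  exact (AddSubgroup.mem_bot).mp hx

/-- The key lemma. -/
lemma W_key {n k : ℕ} {M : ℕ → AddSubgroup L} (hM : Gr n M) (hkn : k < n) {r i' : ℕ} {y : L}
    (hy : W n k M r i' y) : ∀ {i j : ℕ} {x : L}, i' ≡ i [MOD n] → i + j = k → 1 ≤ j → x ∈ M j →
      ⁅y, x⁆ ∈ E n (k + 1) M 1 k := by
  induction hy with
  | base c i' y h1 h2 h3 h4 =>
    intro i j x hii hij hj hx
    exfalso
    have : c = i := Nat.ModEq.eq_of_lt_of_lt (h3.trans hii) h2 (by omega)
    omega
  | step r a0 b i' u l h0 h1 h2 h3 h4 ih =>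
    intro i j x hii hij hj hx
    obtain ⟨a, ha⟩ : ∃ a, a = n + i - b := ⟨_, rfl⟩
    have hab : a + b = n + i := by omega
    have ha0 : a0 ≡ a [MOD n] := by
      have h5 : a0 + b ≡ a + b [MOD n] := by
        rw [hab]
        refine (h3.trans hii).trans ?_
        exact (Nat.ModEq.symm (by simp [Nat.ModEq]))
      exact Nat.ModEq.add_right_cancel' b h5
    have hu : u ∈ M a := by rw [← hM.per _ _ ha0]; exact h0.mem hM
    rw [lie_lie]
    apply AddSubgroup.sub_mem
    · -- ⁅u, ⁅l, x⁆⁆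
      have hlx : ⁅l, x⁆ ∈ M (b + j) := hM.br _ _ _ _ h4 hx
      rcases lt_trichotomy (b + j) n with h | h | h
      · have w1 : W n (k + 1) M 1 a u :=
          W.base a a u (by omega) (by omega) (Nat.ModEq.refl _) hu
        have w2 : W n (k + 1) M (1 + 1) k ⁅u, ⁅l, x⁆⁆ :=
          W.step 1 a (b + j) k u ⁅l, x⁆ w1 (by omega) h (by
            have : a + (b + j) = n + k := by omega
            rw [this]; simp [Nat.ModEq]) hlx
        exact w2.memE (by omega)
      · have : ⁅l, x⁆ = 0 := mem_zero_of hM (by rw [h]; simp [Nat.ModEq]) hlx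
        rw [this, lie_zero]; exact AddSubgroup.zero_mem _
      · obtain ⟨j', hj'⟩ : ∃ j', j' = b + j - n := ⟨_, rfl⟩
        have hlx' : ⁅l, x⁆ ∈ M j' := by
          have h7 : b + j ≡ j' [MOD n] := by
            have : b + j = n + j' := by omega
            rw [this]; simp [Nat.ModEq]
          rw [← hM.per _ _ h7]; exact hlx
        exact ih ha0 (by omega) (by omega) hlx'
    · -- ⁅l, ⁅u, x⁆⁆
      have hux : ⁅u, x⁆ ∈ M (a + j) := hM.br _ _ _ _ hu hx
      rcases Nat.eq_or_lt_of_le h1 with h | h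
      · have : ⁅u, x⁆ = 0 := mem_zero_of hM (by
          have : a + j = n := by omega
          rw [this]; simp [Nat.ModEq]) hux
        rw [this, lie_zero]; exact AddSubgroup.zero_mem _
      · have w1 : W n (k + 1) M 1 b l := W.base b b l (by omega) h2 (Nat.ModEq.refl _) h4
        have w2 : W n (k + 1) M (1 + 1) k ⁅l, ⁅u, x⁆⁆ :=
          W.step 1 b (a + j) k l ⁅u, x⁆ w1 (by omega) (by omega) (by
            have : b + (a + j) = n + k := by omega
            rw [this]; simp [Nat.ModEq]) hux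
        exact w2.memE (by omega)

lemma E_key {n k : ℕ} {M : ℕ → AddSubgroup L} (hM : Gr n M) (hkn : k < n) {r i j : ℕ} {y x : L}
    (hy : y ∈ E n k M r i) (hij : i + j = k) (hj : 1 ≤ j) (hx : x ∈ M j) :
    ⁅y, x⁆ ∈ E n (k + 1) M 1 k := by
  unfold E at hy
  induction hy using AddSubgroup.closure_induction with
  | mem y hy =>
    obtain ⟨r', hr, hw⟩ := hy
    exact W_key hM hkn hw (Nat.ModEq.refl _) hij hj hx
  | zero => rw [zero_lie]; exact AddSubgroup.zero_mem _
  | add x' y' _ _ ihx ihy => rw [add_lie]; exact AddSubgroup.add_mem _ ihx ihy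
  | neg x' _ ih => rw [neg_lie]; exact AddSubgroup.neg_mem _ ih

lemma s_eq (k : ℕ) : s k = 1 + ∑ m ∈ Finset.Ico ((k + 1) / 2) k, s m := by
  rw [s]
  congr 1
  rw [Finset.sum_fin_eq_sum_range]
  have h1 : Finset.Ico ((k + 1) / 2) k = (Finset.range k).filter (fun m => (k + 1) / 2 ≤ m) := by
    ext m; simp only [Finset.mem_Ico, Finset.mem_filter, Finset.mem_range]; tauto
  rw [h1, Finset.sum_filter]
  apply Finset.sum_congr rfl
  intro m hm
  rw [Finset.mem_range] at hm
  simp [hm]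


/-- one step: the component of index `k` of the `s k`-th derived family -/
lemma step_k {n k : ℕ} (hk1 : 1 ≤ k) (hkn : k < n)
    (IH : ∀ (M : ℕ → AddSubgroup L), Gr n M → ∀ i, 1 ≤ i → i < k → ∀ t,
      ∑ m ∈ Finset.Ico i k, s m ≤ t → ((dfam n)^[t] M) i ≤ E n k M 1 i)
    (M : ℕ → AddSubgroup L) (hM : Gr n M) :
    ((dfam n)^[s k] M) k ≤ E n (k + 1) M 1 k := by
  obtain ⟨e, he⟩ : ∃ e, e = ∑ m ∈ Finset.Ico ((k + 1) / 2) k, s m := ⟨_, rfl⟩
  have hs : s k = e + 1 := by rw [s_eq, ← he, Nat.add_comm]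
  rw [hs, Function.iterate_succ_apply']
  unfold dfam
  rw [AddSubgroup.closure_le]
  rintro z ⟨i', j', x, y, hij', hx, hy, rfl⟩
  have hn : 0 < n := by omega
  have hD : Gr n ((ShorterKreknin.dfam n)^[e] M) := hM.iter e
  obtain ⟨i, hi⟩ : ∃ i, i = i' % n := ⟨_, rfl⟩
  obtain ⟨j, hj⟩ : ∃ j, j = j' % n := ⟨_, rfl⟩
  have hi1 : i < n := by rw [hi]; exact Nat.mod_lt _ hn
  have hj1 : j < n := by rw [hj]; exact Nat.mod_lt _ hn
  have hii : i' ≡ i [MOD n] := by rw [hi]; exact (Nat.mod_modEq _ _).symm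
  have hjj : j' ≡ j [MOD n] := by rw [hj]; exact (Nat.mod_modEq _ _).symm
  have hij : i + j ≡ k [MOD n] := ((Nat.ModEq.add hii hjj).symm).trans hij'
  have hx1 : x ∈ ((ShorterKreknin.dfam n)^[e] M) i := by rw [← hD.per _ _ hii]; exact hx
  have hy1 : y ∈ ((ShorterKreknin.dfam n)^[e] M) j := by rw [← hD.per _ _ hjj]; exact hy
  have hx2 : x ∈ M i := iter_le hM e i hx1
  have hy2 : y ∈ M j := iter_le hM e j hy1
  show ⁅x, y⁆ ∈ E n (k + 1) M 1 k
  rcases Nat.eq_zero_or_pos i with h0 | hipos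
  · have : x = 0 := mem_zero_of hM (by rw [h0]) hx2
    rw [this, zero_lie]; exact AddSubgroup.zero_mem _
  rcases Nat.eq_zero_or_pos j with h0 | hjpos
  · have : y = 0 := mem_zero_of hM (by rw [h0]) hy2
    rw [this, lie_zero]; exact AddSubgroup.zero_mem _
  by_cases hlt : i + j < n
  · have hk : i + j = k := Nat.ModEq.eq_of_lt_of_lt hij hlt hkn
    rcases Nat.le_total j i with hle | hle
    · have h1 : ∑ m ∈ Finset.Ico i k, s m ≤ e := by
        rw [he]
        apply Finset.sum_le_sum_of_subset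
        intro m hm
        rw [Finset.mem_Ico] at hm ⊢
        omega
      have h2 := IH M hM i hipos (by omega) e h1 hx1
      exact E_key hM hkn h2 hk hjpos hy2
    · have h1 : ∑ m ∈ Finset.Ico j k, s m ≤ e := by
        rw [he]
        apply Finset.sum_le_sum_of_subset
        intro m hm
        rw [Finset.mem_Ico] at hm ⊢
        omega
      have h2 := IH M hM j hjpos (by omega) e h1 hy1
      have h3 := E_key hM hkn h2 (by omega : j + i = k) hipos hx2
      rw [← lie_skew]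
      exact AddSubgroup.neg_mem _ h3
  · have hk : i + j = n + k := by
      have h5 : i + j - n ≡ k [MOD n] := by
        have h6 : (i + j - n) + n ≡ k [MOD n] := by
          rw [Nat.sub_add_cancel (by omega)]; exact hij
        simpa [Nat.ModEq] using h6
      have := Nat.ModEq.eq_of_lt_of_lt h5 (by omega) hkn
      omega
    have w1 : W n (k + 1) M 1 i x := W.base i i x (by omega) hi1 (Nat.ModEq.refl _) hx2
    exact (W.step 1 i j k x y w1 (by omega) hj1 hij hy2).memE (by omega)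

lemma combine {n k u i : ℕ} {M N : ℕ → AddSubgroup L} (hle : ∀ c, N c ≤ M c)
    (hk : N k ≤ E n (k + 1) M 1 k) (h2 : ((dfam n)^[u] N) i ≤ E n k N 1 i) :
    ((dfam n)^[u] N) i ≤ E n (k + 1) M 1 i :=
  h2.trans (E_replace hle hk)

/-- The main induction. -/
lemma main (n : ℕ) : ∀ k, k ≤ n → ∀ (M : ℕ → AddSubgroup L), Gr n M → ∀ i, 1 ≤ i → i < k → ∀ t,
      ∑ m ∈ Finset.Ico i k, s m ≤ t → ((dfam n)^[t] M) i ≤ E n k M 1 i := by
  intro k
  induction k with
  | zero => intro _ M _ i _ hi; omega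
  | succ k IH =>
    intro hkn M hM i hi1 hik t ht
    have IH' := IH (by omega)
    have hk1 : 1 ≤ k := by omega
    have hst : ∀ (M : ℕ → AddSubgroup L), Gr n M →
        ((dfam n)^[s k] M) k ≤ E n (k + 1) M 1 k :=
      fun M hM => step_k hk1 (by omega) IH' M hM
    rcases Nat.eq_or_lt_of_le (Nat.lt_succ_iff.mp hik) with h | h
    · subst h
      have h1 : s i ≤ t := by
        rw [Finset.sum_Ico_succ_top le_rfl] at ht
        simpa using ht
      exact (iter_anti hM h1 i).trans (hst M hM)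
    · rw [Finset.sum_Ico_succ_top h.le] at ht
      obtain ⟨u, hu⟩ : ∃ u, t = u + s k := ⟨t - s k, by omega⟩
      subst hu
      rw [Function.iterate_add_apply]
      have h2 := IH' ((dfam n)^[s k] M) (hM.iter (s k)) i hi1 h u (by omega)
      have h3 : ∀ c, ((dfam n)^[s k] M) c ≤ M c := fun c => iter_le hM (s k) c
      have h4 := hst M hM
      exact combine h3 h4 h2

/-- words in letters of index `n - 1` only -/
lemma W_last {n : ℕ} (hn : 2 ≤ n) {M : ℕ → AddSubgroup L} (hM : Gr n M) {r i : ℕ} {x : L}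
    (h : W n (n - 1) M r i x) : i + r ≡ 0 [MOD n] ∧ (n ≤ r → x = 0) := by
  induction h with
  | base c i x h1 h2 h3 h4 =>
    have hc : c = n - 1 := by omega
    refine ⟨?_, fun h => by omega⟩
    have h5 : i + 1 ≡ c + 1 [MOD n] := Nat.ModEq.add_right 1 h3.symm
    have h6 : c + 1 = n := by omega
    rw [h6] at h5
    exact h5.trans (by simp [Nat.ModEq])
  | step r a b i u l h0 h1 h2 h3 h4 ih =>
    have hb : b = n - 1 := by omega
    have h7 : i + (r + 1) ≡ 0 [MOD n] := by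
      have h5 : i + (r + 1) ≡ (a + b) + (r + 1) [MOD n] := Nat.ModEq.add_right _ h3.symm
      have h6 : (a + b) + (r + 1) = (a + r) + n := by omega
      rw [h6] at h5
      have h8 : (a + r) + n ≡ 0 + 0 [MOD n] := Nat.ModEq.add ih.1 (by simp [Nat.ModEq])
      exact h5.trans h8
    refine ⟨h7, fun h => ?_⟩
    rcases Nat.eq_or_lt_of_le h with h | h
    · have hW : W n (n - 1) M (r + 1) i ⁅u, l⁆ := W.step r a b i u l h0 h1 h2 h3 h4
      have h8 : i ≡ 0 [MOD n] := by
        rw [← h] at h7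
        have : i + n ≡ i [MOD n] := by simp [Nat.ModEq]
        exact this.symm.trans h7
      exact mem_zero_of hM h8 (hW.mem hM)
    · rw [ih.2 (by omega), zero_lie]

lemma E_last {n : ℕ} (hn : 2 ≤ n) {M : ℕ → AddSubgroup L} (hM : Gr n M) {r : ℕ} (hr : n ≤ r)
    (i : ℕ) : E n (n - 1) M r i = ⊥ := by
  rw [eq_bot_iff]
  unfold E
  rw [AddSubgroup.closure_le]
  rintro z ⟨r', hr', hz⟩
  have := (W_last hn hM hz).2 (by omega)
  rw [this]
  exact AddSubgroup.zero_mem _

lemma τ_eq (n : ℕ) : τ (n - 2) = ∑ m ∈ Finset.Ico 1 (n - 1), s m := by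
  unfold τ
  apply Finset.sum_congr _ (fun _ _ => rfl)
  ext m
  simp only [Finset.mem_Icc, Finset.mem_Ico]
  omega

lemma phase1 {n : ℕ} (hn : 2 ≤ n) {M : ℕ → AddSubgroup L} (hM : Gr n M) (i : ℕ) :
    ((dfam n)^[τ (n - 2)] M) i ≤ E n (n - 1) M 1 i := by
  have hD : Gr n ((dfam n)^[τ (n - 2)] M) := hM.iter _
  have hi : i ≡ i % n [MOD n] := (Nat.mod_modEq _ _).symm
  have hlt : i % n < n := Nat.mod_lt _ (by omega)
  intro x hx
  have hx1 : x ∈ ((dfam n)^[τ (n - 2)] M) (i % n) := by rw [← hD.per _ _ hi]; exact hx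
  apply E_mod _ hi.symm
  rcases Nat.eq_zero_or_pos (i % n) with h0 | hpos
  · have : x = 0 := mem_zero_of hM (by rw [h0]) (iter_le hM _ _ hx1)
    rw [this]; exact AddSubgroup.zero_mem _
  by_cases h : i % n < n - 1
  · refine main n (n - 1) (by omega) M hM (i % n) hpos h _ ?_ hx1
    rw [τ_eq]
    apply Finset.sum_le_sum_of_subset
    intro m hm
    rw [Finset.mem_Ico] at hm ⊢
    omega
  · exact (W.base (i % n) (i % n) x (by omega) hlt (Nat.ModEq.refl _)
      (iter_le hM _ _ hx1)).memE le_rfl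

lemma phase2 {n : ℕ} (hn : 2 ≤ n) {M : ℕ → AddSubgroup L} (hM : Gr n M) (r : ℕ) :
    ∀ i, ((dfam n)^[r + τ (n - 2)] M) i ≤ E n (n - 1) M (2 ^ r) i := by
  induction r with
  | zero => intro i; simpa using phase1 hn hM i
  | succ r ih =>
    intro i
    have : r + 1 + τ (n - 2) = (r + τ (n - 2)) + 1 := by omega
    rw [this, Function.iterate_succ_apply']
    unfold dfam
    rw [AddSubgroup.closure_le]
    rintro z ⟨a, b, x, y, hab, hx, hy, rfl⟩
    have h1 := E_E (ih a hx) (ih b hy)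
    have h2 : 2 ^ r + 2 ^ r = 2 ^ (r + 1) := by rw [pow_succ]; ring
    rw [h2] at h1
    exact E_mod h1 hab

lemma fam_bot {n : ℕ} (hn : 2 ≤ n) {M : ℕ → AddSubgroup L} (hM : Gr n M) (i : ℕ) :
    ((dfam n)^[τ (n - 2) + Nat.clog 2 n] M) i = ⊥ := by
  rw [eq_bot_iff, Nat.add_comm]
  refine (phase2 hn hM (Nat.clog 2 n) i).trans ?_
  rw [E_last hn hM (Nat.le_pow_clog (by norm_num) n) i]

lemma iSup_bracket {n : ℕ} {N : ℕ → AddSubgroup L} {x y : L} (hx : x ∈ ⨆ i, N i)
    (hy : y ∈ ⨆ i, N i) : ⁅x, y⁆ ∈ ⨆ i, dfam n N i := by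
  induction hx using AddSubgroup.iSup_induction' with
  | hp i x hx =>
    induction hy using AddSubgroup.iSup_induction' with
    | hp j y hy =>
      exact AddSubgroup.mem_iSup_of_mem (i + j)
        (AddSubgroup.subset_closure ⟨i, j, x, y, Nat.ModEq.refl _, hx, hy, rfl⟩)
    | h1 => rw [lie_zero]; exact AddSubgroup.zero_mem _
    | hadd a b _ _ iha ihb => rw [lie_add]; exact AddSubgroup.add_mem _ iha ihb
  | h1 => rw [zero_lie]; exact AddSubgroup.zero_mem _
  | hadd a b _ _ iha ihb => rw [add_lie]; exact AddSubgroup.add_mem _ iha ihb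

lemma der_le {n : ℕ} {M : ℕ → AddSubgroup L} (htop : ⨆ i, M i = ⊤) (t : ℕ) :
    der L t ≤ ⨆ i, ((dfam n)^[t] M) i := by
  induction t with
  | zero => simpa [der] using htop
  | succ t ih =>
    rw [Function.iterate_succ_apply']
    show brk (der L t) (der L t) ≤ _
    unfold brk
    rw [AddSubgroup.closure_le]
    rintro z ⟨x, hx, y, hy, rfl⟩
    exact iSup_bracket (ih hx) (ih hy)


lemma s_succ_le (k : ℕ) (hk : 1 ≤ k) : s (k + 1) ≤ 2 * s k := by
  have h1 := s_eq (k + 1)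
  have h2 := s_eq k
  have h3 : ∑ m ∈ Finset.Ico ((k + 1 + 1) / 2) (k + 1), s m
      ≤ ∑ m ∈ Finset.Ico ((k + 1) / 2) (k + 1), s m := by
    apply Finset.sum_le_sum_of_subset
    intro m hm
    rw [Finset.mem_Ico] at hm ⊢
    omega
  have h4 := Finset.sum_Ico_succ_top (show (k + 1) / 2 ≤ k by omega) s
  omega

lemma s1 : s 1 = 1 := by rw [s_eq]; have : Finset.Ico ((1 + 1) / 2) 1 = ∅ := by decide
                         rw [this]; simp
lemma s2 : s 2 = 2 := by rw [s_eq]; have : Finset.Ico ((2 + 1) / 2) 2 = {1} := by decide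
                         rw [this]; simp [s1]
lemma s3 : s 3 = 3 := by rw [s_eq]; have : Finset.Ico ((3 + 1) / 2) 3 = {2} := by decide
                         rw [this]; simp [s2]
lemma s4 : s 4 = 6 := by rw [s_eq]; have : Finset.Ico ((4 + 1) / 2) 4 = {2, 3} := by decide
                         rw [this]; simp [s2, s3]
lemma s5 : s 5 = 10 := by rw [s_eq]; have : Finset.Ico ((5 + 1) / 2) 5 = {3, 4} := by decide
                          rw [this]; simp [s3, s4]
lemma s6 : s 6 = 20 := by rw [s_eq]; have : Finset.Ico ((6 + 1) / 2) 6 = {3, 4, 5} := by decide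
                          rw [this]; simp [s3, s4, s5]
lemma s7 : s 7 = 37 := by rw [s_eq]; have : Finset.Ico ((7 + 1) / 2) 7 = {4, 5, 6} := by decide
                          rw [this]; simp [s4, s5, s6]
lemma s8 : s 8 = 74 := by rw [s_eq]; have : Finset.Ico ((8 + 1) / 2) 8 = {4, 5, 6, 7} := by decide
                          rw [this]; simp [s4, s5, s6, s7]
lemma s9 : s 9 = 142 := by rw [s_eq]; have : Finset.Ico ((9 + 1) / 2) 9 = {5, 6, 7, 8} := by decide
                           rw [this]; simp [s5, s6, s7, s8]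
lemma s10 : s 10 = 284 := by
  rw [s_eq]; have : Finset.Ico ((10 + 1) / 2) 10 = {5, 6, 7, 8, 9} := by decide
  rw [this]; simp [s5, s6, s7, s8, s9]
lemma s11 : s 11 = 558 := by
  rw [s_eq]; have : Finset.Ico ((11 + 1) / 2) 11 = {6, 7, 8, 9, 10} := by decide
  rw [this]; simp [s6, s7, s8, s9, s10]

lemma τ_succ (m : ℕ) : τ (m + 1) = τ m + s (m + 1) := by
  unfold τ
  rw [Finset.sum_Icc_succ_top (by omega)]

lemma τ0 : τ 0 = 0 := by unfold τ; simp
lemma τ2 : τ 2 = 3 := by rw [τ_succ, τ_succ, τ0, s1, s2]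
lemma τ10 : τ 10 = 579 := by
  rw [τ_succ, τ_succ, τ_succ, τ_succ, τ_succ, τ_succ, τ_succ, τ_succ, τ2, s3, s4, s5, s6, s7, s8,
    s9, s10]

lemma s_le (d : ℕ) : s (11 + d) ≤ 558 * 2 ^ d := by
  induction d with
  | zero => simp [s11]
  | succ d ih =>
    have := s_succ_le (11 + d) (by omega)
    have h2 : 11 + (d + 1) = 11 + d + 1 := by omega
    rw [h2, pow_succ]
    omega

/-- `τ(m) ≤ 558 * 2^(m-10) + 21` for `m ≥ 10` -/
lemma τ_le (d : ℕ) : τ (10 + d) ≤ 558 * 2 ^ d + 21 := by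
  induction d with
  | zero => simp [τ10]
  | succ d ih =>
    have h1 : 10 + (d + 1) = (10 + d) + 1 := by omega
    rw [h1, τ_succ]
    have h2 := s_le d
    have h3 : 10 + d + 1 = 11 + d := by omega
    rw [h3, pow_succ]
    omega

lemma τ3_aux (d : ℕ) : τ (2 + d) ≤ 3 * 2 ^ d ∧ s (3 + d) ≤ 3 * 2 ^ d := by
  induction d with
  | zero => simp [τ2, s3]
  | succ d ih =>
    have h1 : 2 + (d + 1) = (2 + d) + 1 := by omega
    have h3 : 2 + d + 1 = 3 + d := by omega
    have h4 : 3 + (d + 1) = (3 + d) + 1 := by omega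
    have h5 := s_succ_le (3 + d) (by omega)
    refine ⟨?_, ?_⟩
    · rw [h1, τ_succ, h3, pow_succ]; omega
    · rw [h4, pow_succ]; omega

universe u

/-- **Result.**  Let `n ≥ 2` and let `L = ⨁_{i mod n} L_i` be a `(ℤ/n)`-graded Lie ring with
`L_0 = 0`.  Then `L` is soluble of derived length at most `τ(n-2) + ⌈log₂ n⌉`; moreover
`τ(n-2) ≤ 3 * 2^(n-4)` for `n ≥ 4` and `τ(n-2) ≤ 558 * 2^(n-12) + 21` for `n ≥ 12`. -/
theorem result :
    (∀ n : ℕ, 2 ≤ n → ∀ (L : Type u) [LieRing L] (G : ZMod n → AddSubgroup L),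
      IsGrading n G → G 0 = ⊥ → der L (τ (n - 2) + Nat.clog 2 n) = ⊥) ∧
    (∀ n : ℕ, 4 ≤ n → τ (n - 2) ≤ 3 * 2 ^ (n - 4)) ∧
    (∀ n : ℕ, 12 ≤ n → τ (n - 2) ≤ 558 * 2 ^ (n - 12) + 21) := by
  refine ⟨?_, ?_, ?_⟩
  · intro n hn L _ G hG h0
    have : NeZero n := ⟨by omega⟩
    have hM : Gr n (fun i : ℕ => G (i : ZMod n)) :=
      { zero := by
          show G ((0 : ℕ) : ZMod n) = ⊥
          rw [Nat.cast_zero, h0]
        per := by
          intro i j hij
          show G (i : ZMod n) = G (j : ZMod n)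
          rw [(ZMod.natCast_eq_natCast_iff i j n).mpr hij]
        br := by
          intro i j x y hx hy
          show ⁅x, y⁆ ∈ G ((i + j : ℕ) : ZMod n)
          rw [Nat.cast_add]
          exact hG.bracket _ _ (AddSubgroup.subset_closure ⟨x, hx, y, hy, rfl⟩) }
    have htop : ⨆ i : ℕ, (fun i : ℕ => G (i : ZMod n)) i = ⊤ := by
      rw [eq_top_iff]
      intro x _
      obtain ⟨f, rfl⟩ := hG.internal.2 x
      induction f using DirectSum.induction_on with
      | zero => rw [map_zero]; exact AddSubgroup.zero_mem _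
      | of i a =>
        rw [DirectSum.coeAddMonoidHom_of]
        apply AddSubgroup.mem_iSup_of_mem i.val
        show (a : L) ∈ G ((i.val : ℕ) : ZMod n)
        rw [ZMod.natCast_zmod_val]
        exact a.2
      | add a b iha ihb =>
        rw [map_add]
        exact AddSubgroup.add_mem _ (iha (AddSubgroup.mem_top _)) (ihb (AddSubgroup.mem_top _))
    rw [eq_bot_iff]
    refine (der_le (n := n) htop _).trans ?_
    apply iSup_le
    intro i
    rw [fam_bot hn hM i]
  · intro n hn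
    obtain ⟨d, rfl⟩ := Nat.exists_eq_add_of_le hn
    have h := (τ3_aux d).1
    have h1 : 4 + d - 2 = 2 + d := by omega
    have h2 : 4 + d - 4 = d := by omega
    rw [h1, h2]
    exact h
  · intro n hn
    obtain ⟨d, rfl⟩ := Nat.exists_eq_add_of_le hn
    have h := τ_le d
    have h1 : 12 + d - 2 = 10 + d := by omega
    have h2 : 12 + d - 12 = d := by omega
    rw [h1, h2]
    exact h

end Pool.Agent.Results.MP_6f1380_al.ShorterKreknin
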